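import Pool.Agent.H57.LH.Targets2

/-!
# All first-order reducts of structures with local completions: correctness of the reduction

Adapted from `Pool/Agent/H50/AR/RE1.lean`.
-/

set_option autoImplicit false

namespace Pool.Agent.H10.LH

open Pool.Agent.H68.BP Pool.Agent.H58.SF Pool.Agent.H53.GC Pool.Agent.H53.NR
open Pool.Agent.H53.GR (Dm Ps)
open Pool.Agent.H57.AR (tp ty tpo pullO Ty OT HomEq El ElD FamR Od GmR INJ lft Sgn rsS ord)
open Pool.Agent.H57.SO (Pal Col vt Bh Sbn fib sigF)
open Pool.Agent.H57.EQ (Cx T_CYF)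
open Pool.Agent.H57.LCI (LocalCompletions Pre Realizes)
open Pool.Agent.H44.KR (HB Amg Tyi Rz Rlz Clp LInj Prm TpOn RmL LcN Pl lr blk Fv kv RkI Kd JJ Yc IsTh Can Plf Pls)
open Pool.Agent.H57.LH Function

/-- the classes of an equivalence relation on a finite set, with representatives -/
theorem exists_classes {W : Type} [Finite W] (R : W → W → Prop) (hR : Equivalence R) :
    ∃ (N : ℕ) (cl : W → Fin N) (rp : Fin N → W), (∀ i, cl (rp i) = i) ∧
      ∀ i j, cl i = cl j ↔ R i j := by
  let St : Setoid W := ⟨R, hR⟩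
  let e : Quotient St ≃ Fin (Nat.card (Quotient St)) := Finite.equivFin _
  refine ⟨_, fun u => e (Quotient.mk St u), fun i => (e.symm i).out, fun i => ?_, fun i j => ?_⟩
  · have h1 : Quotient.mk St (e.symm i).out = e.symm i := Quotient.out_eq _
    simp only [h1, e.apply_symm_apply]
  · constructor
    · intro h
      exact Quotient.exact (e.injective h)
    · intro h
      exact congrArg e (Quotient.sound h)

section cut

/-- the map onto the first `r` places -/
def cut {r : ℕ} (hr : 1 ≤ r) (k : ℕ) : Fin k → Fin r := fun i => ⟨min (i : ℕ) (r - 1), by omega⟩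

theorem cut_inc {r k : ℕ} (hr : 1 ≤ r) (hk : r ≤ k) (i : Fin r) :
    cut hr k (Fin.castLE hk i) = i := by
  apply Fin.ext
  have := i.2
  simp only [cut, Fin.val_castLE]
  omega

end cut

section re

variable {σ ρ : Sig} {V S X : Type} {P : Pal S X} {𝔸 : Str σ V}
  {𝔹 : Str ρ V} {M : ℕ} {c : V → V → S ⊕ X}

/-- correctness of the reduction -/
theorem re1L {θ : Sig} (𝕋 : Str θ (Dm ρ M)) (h3 : 3 ≤ M) (htyi : Tyi 𝔸 𝔹) (hbdd : BddL 𝔹 M)
    (har : ∀ l, 1 ≤ ρ.ar l ∧ ρ.ar l < M) (n : ℕ) (𝕏 : Str σ (Fin n)) :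
    (∃ f, IsHom 𝕏 𝔸 f) ↔ ∃ q : (Σ j : Fin M, (Fin (j + 1) → Fin n)) → El S ρ M,
      ∀ (s : Option (Fin σ.m)) (y : Fin (arP σ M s) → Fin n), relP 𝕏 M s y →
        FamR P 𝔸 𝔹 M c 𝕋 s (fun p => q ⟨p.1, fun i => y (p.2 i)⟩) := by
  classical
  constructor
  · rintro ⟨f, hf⟩
    obtain ⟨N, kk', -, -, hkk'⟩ := exists_classes (fun i j => f i = f j)
      ⟨fun _ => rfl, fun h => h.symm, fun h1 h2 => h1.trans h2⟩
    let kk : Fin n → ℕ := fun i => kk' i
    have hkk : ∀ i j, kk i = kk j ↔ f i = f j := fun i j => by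
      rw [← hkk']
      exact ⟨fun h => Fin.ext h, fun h => congrArg Fin.val h⟩
    refine ⟨fun p => ⟨p.1, ⟨fun a => vt P c (f (p.2 a)), fun a b => kk (p.2 a) = kk (p.2 b),
      fun _ => pull 𝔹 (fun a => f (p.2 a)), fun φ => φ (ord fun a => kk (p.2 a))⟩⟩,
      fun s y hr => ?_⟩
    refine ⟨fun a => kk (y a), fun φ => φ (ord fun a => kk (y a)), fun a => vt P c (f (y a)),
      fun j α _ => pull 𝔹 (fun a => f (y (α a))), fun l x hx => hx _, ?_, fun j α => rfl,
      fun rk hrk => ⟨fun a => f (y a), ?_, fun a b => (hkk _ _).symm, fun a => rfl,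
        fun j α => rfl⟩⟩
    · intro φ φ' h
      exact h _ ⟨_, fun a b => Iff.rfl, rfl⟩
    · cases s with
      | none => trivial
      | some l => exact hf l y hr
  · rintro ⟨q, hq⟩
    obtain ⟨M', rfl⟩ : ∃ M', M = M' + 1 := ⟨M - 1, by omega⟩
    let i2 : Fin (M' + 1) := ⟨1, by omega⟩
    let R : Fin n → Fin n → Prop := fun i j => ∃ e : ElD S ρ (Dm ρ (M' + 1)) 2,
      q ⟨i2, ![i, j]⟩ = ⟨i2, e⟩ ∧ e.kr 0 1
    have hR : ∀ (s : Option (Fin σ.m)) (y : Fin (arP σ (M' + 1) s) → Fin n)
        (k : Fin (arP σ (M' + 1) s) → ℕ) (E : Sgn (Dm ρ (M' + 1)) (arP σ (M' + 1) s))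
        (t : Fin (arP σ (M' + 1) s) → S)
        (st : (j : Fin (M' + 1)) → (Fin (j + 1) → Fin (arP σ (M' + 1) s)) → Od (j + 1) →
          Str ρ (Fin (j + 1))),
        (∀ (j : Fin (M' + 1)) (α : Fin (j + 1) → Fin (arP σ (M' + 1) s)),
          q ⟨j, fun i => y (α i)⟩ = ⟨j, ⟨fun a => t (α a), fun a b => k (α a) = k (α b),
            st j α, rsS α E⟩⟩) → ∀ a b, R (y a) (y b) ↔ k a = k b := by
      intro s y k E t st h a b
      have h1 := h i2 ![a, b]
      have h2 : (fun i => y ((![a, b] : Fin 2 → _) i)) = ![y a, y b] := by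
        funext i
        match i with
        | 0 => rfl
        | 1 => rfl
      have h3 : q ⟨i2, ![y a, y b]⟩ = ⟨i2, ⟨fun a' => t ((![a, b] : Fin 2 → _) a'),
          fun a' b' => k ((![a, b] : Fin 2 → _) a') = k ((![a, b] : Fin 2 → _) b'),
            st i2 ![a, b], rsS ![a, b] E⟩⟩ := by
        rw [← h2]
        exact h1
      constructor
      · rintro ⟨e, he, hk⟩
        rw [h3] at he
        have h4 := eq_of_heq (Sigma.mk.inj_iff.1 he).2
        rw [← h4] at hk
        exact hk
      · intro hk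
        exact ⟨_, h3, hk⟩
    have tri : ∀ p : Fin (M' + 1) → Fin n, ∃ k : Fin (M' + 1) → ℕ,
        ∀ a b, R (p a) (p b) ↔ k a = k b := by
      intro p
      obtain ⟨k, E, t, st, -, -, h, -⟩ := hq none p trivial
      exact ⟨k, hR none p k E t st h⟩
    have hrefl : ∀ i, R i i := by
      intro i
      obtain ⟨k, hk⟩ := tri (fun _ => i)
      exact (hk 0 0).2 rfl
    have hsy : ∀ {i j}, R i j → R j i := by
      intro i j h1
      obtain ⟨k, hk⟩ := tri (fun a => if a.1 = 0 then i else j)
      have e1 := (hk ⟨0, by omega⟩ ⟨1, by omega⟩).1 (by simpa using h1)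
      have e2 := (hk ⟨1, by omega⟩ ⟨0, by omega⟩).2 e1.symm
      simpa using e2
    have htr : ∀ {i j l}, R i j → R j l → R i l := by
      intro i j l h1 h2
      obtain ⟨k, hk⟩ := tri (fun a => if a.1 = 0 then i else if a.1 = 1 then j else l)
      have e1 := (hk ⟨0, by omega⟩ ⟨1, by omega⟩).1 (by simpa using h1)
      have e2 := (hk ⟨1, by omega⟩ ⟨2, by omega⟩).1 (by simpa using h2)
      have e3 := (hk ⟨0, by omega⟩ ⟨2, by omega⟩).2 (e1.trans e2)
      simpa using e3
    obtain ⟨N, cl, rp, hrp, hcl⟩ := exists_classes R ⟨hrefl, hsy, htr⟩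
    let rk : Fin n → ℕ := fun i => cl i
    have hrk : ∀ i j, rk i = rk j ↔ R i j := fun i j => by
      rw [← hcl]
      exact ⟨fun h => Fin.ext h, fun h => congrArg Fin.val h⟩
    have hle : ∀ l, ρ.ar l ≤ M' + 1 := fun l => (har l).2.le
    -- the relations
    let Q : (l : Fin ρ.m) → (Fin (ρ.ar l) → Fin n) → Prop := fun l z =>
      ∃ e : ElD S ρ (Dm ρ (M' + 1)) (M' + 1),
        q ⟨Fin.last M', fun i => z (cut (har l).1 _ i)⟩ = ⟨Fin.last M', e⟩ ∧
        e.st (ord fun a => rk (z (cut (har l).1 _ a))) l (Fin.castLE (hle l))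
    have key : ∀ (s : Option (Fin σ.m)) (y : Fin (arP σ (M' + 1) s) → Fin n),
        relP 𝕏 (M' + 1) s y → ∃ x : Fin (arP σ (M' + 1) s) → V, relP 𝔸 (M' + 1) s x ∧
          (∀ a b, x a = x b ↔ R (y a) (y b)) ∧
          ∀ (l : Fin ρ.m) (w : Fin (ρ.ar l) → Fin (arP σ (M' + 1) s)),
            Q l (fun i => y (w i)) ↔ 𝔹 l (fun i => x (w i)) := by
      intro s y hr
      obtain ⟨k, E, t, st, -, -, h1, h2⟩ := hq s y hr
      have hk := hR s y k E t st h1
      obtain ⟨x, hx1, hx2, -, hx3⟩ := h2 (fun a => rk (y a)) (fun a b => by rw [hrk, hk])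
      refine ⟨x, hx1, fun a b => by rw [hx2, hk], fun l w => ?_⟩
      let α : Fin (M' + 1) → Fin (arP σ (M' + 1) s) := fun i => w (cut (har l).1 _ i)
      have e1 := h1 (Fin.last M') α
      have e2 := hx3 (Fin.last M') α
      have e3 := congrFun (congrFun e2 l) (Fin.castLE (hle l))
      have e4 : pull 𝔹 (fun a => x (α a)) l (Fin.castLE (hle l)) = 𝔹 l (fun i => x (w i)) := by
        unfold pull
        exact congrArg (𝔹 l) (funext fun i => congrArg (fun j => x (w j)) (cut_inc _ (hle l) i))
      have e6 := e4.symm.trans e3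
      constructor
      · rintro ⟨e, he, hst⟩
        rw [e6]
        have e5 := eq_of_heq (Sigma.mk.inj_iff.1 (e1.symm.trans he)).2
        rw [← e5] at hst
        exact hst
      · intro hB
        rw [e6] at hB
        exact ⟨_, e1, hB⟩
    have keyN : ∀ p : Fin (M' + 1) → Fin n, ∃ x : Fin (M' + 1) → V,
        (∀ a b, x a = x b ↔ R (p a) (p b)) ∧
          ∀ (l : Fin ρ.m) (w : Fin (ρ.ar l) → Fin (M' + 1)),
            Q l (fun i => p (w i)) ↔ 𝔹 l (fun i => x (w i)) := by
      intro p
      obtain ⟨x, -, h2, h3⟩ := key none p trivial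
      exact ⟨x, h2, h3⟩
    -- exchange of one place
    have ex1 : ∀ (l : Fin ρ.m) (z : Fin (ρ.ar l) → Fin n) (a : Fin (ρ.ar l)) (i : Fin n),
        R (z a) i → (Q l z ↔ Q l (update z a i)) := by
      intro l z a i hi
      let p : Fin (M' + 1) → Fin n := fun b => if b = Fin.last M' then i else
        z (cut (har l).1 _ b)
      obtain ⟨x, hx2, hx3⟩ := keyN p
      have hinc : ∀ b : Fin (ρ.ar l), Fin.castLE (hle l) b ≠ Fin.last M' := by
        intro b h
        have h1 := congrArg Fin.val h
        simp only [Fin.val_castLE, Fin.val_last] at h1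
        have := b.2
        have := (har l).2
        omega
      have hp : ∀ b : Fin (ρ.ar l), p (Fin.castLE (hle l) b) = z b := by
        intro b
        simp only [p, if_neg (hinc b), cut_inc]
      have hpl : p (Fin.last M') = i := by simp only [p, if_true]
      have e1 := hx3 l (Fin.castLE (hle l))
      have e2 := hx3 l (update (Fin.castLE (hle l)) a (Fin.last M'))
      have e3 : (fun b => p (Fin.castLE (hle l) b)) = z := funext hp
      have e4 : (fun b => p (update (Fin.castLE (hle l)) a (Fin.last M') b)) =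
          update z a i := by
        funext b
        by_cases hb : b = a
        · subst hb
          rw [update_self, update_self, hpl]
        · rw [update_of_ne hb, update_of_ne hb, hp]
      have e5 : (fun b => x (update (Fin.castLE (hle l)) a (Fin.last M') b)) =
          fun b => x (Fin.castLE (hle l) b) := by
        funext b
        by_cases hb : b = a
        · subst hb
          rw [update_self]
          refine ((hx2 _ _).2 ?_).symm
          rw [hp, hpl]
          exact hi
        · rw [update_of_ne hb]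
      have e1' : Q l z ↔ 𝔹 l (fun b => x (Fin.castLE (hle l) b)) := by
        rw [← e1]
        exact iff_of_eq (congrArg (Q l) e3.symm)
      have e2' : Q l (update z a i) ↔
          𝔹 l (fun b => x (update (Fin.castLE (hle l)) a (Fin.last M') b)) := by
        rw [← e2]
        exact iff_of_eq (congrArg (Q l) e4.symm)
      rw [e1', e2', e5]
    have exA : ∀ (l : Fin ρ.m) (z z' : Fin (ρ.ar l) → Fin n), (∀ a, R (z a) (z' a)) →
        (Q l z ↔ Q l z') := by
      intro l z z' hz
      have h1 : ∀ T : Finset (Fin (ρ.ar l)), Q l z ↔ Q l (fun a => if a ∈ T then z' a else z a) := by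
        intro T
        induction T using Finset.induction_on with
        | empty => simp
        | insert a T ha ih =>
          rw [ih]
          have h2 := ex1 l (fun b => if b ∈ T then z' b else z b) a (z' a) (by
            simp only [if_neg ha]
            exact hz a)
          rw [h2]
          have h4 : update (fun b => if b ∈ T then z' b else z b) a (z' a) =
              fun b => if b ∈ insert a T then z' b else z b := by
            funext b
            by_cases hb : b = a
            · subst hb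
              rw [update_self]
              simp
            · rw [update_of_ne hb]
              simp [hb]
          rw [h4]
      have h2 := h1 Finset.univ
      simpa using h2
    -- realization
    obtain ⟨f, hfi, hfe⟩ := hbdd (Fin N) (fun l w => Q l (fun i => rp (w i))) (by
      intro m s hm hsi
      rcases Nat.eq_zero_or_pos m with h0 | hpos
      · subst h0
        refine ⟨fun i => i.elim0, fun i => i.elim0, ?_⟩
        funext l z
        exact (z ⟨0, (har l).1⟩).elim0
      let p : Fin (M' + 1) → Fin n := fun b => rp (s (cut hpos _ b))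
      have hp : ∀ b : Fin m, p (Fin.castLE hm b) = rp (s b) := by
        intro b
        simp only [p, cut_inc]
      obtain ⟨x, hx2, hx3⟩ := keyN p
      refine ⟨fun a => x (Fin.castLE hm a), fun a b hab => ?_, ?_⟩
      · have h1 := (hx2 _ _).1 hab
        rw [hp, hp, ← hcl, hrp, hrp] at h1
        exact hsi h1
      · funext l z
        refine propext ?_
        have h1 := hx3 l (fun i => Fin.castLE hm (z i))
        refine Iff.trans h1.symm ?_
        exact iff_of_eq (congrArg (Q l) (funext fun i => hp (z i))))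
    refine ⟨fun i => f (cl i), fun l y hy => ?_⟩
    obtain ⟨x, hx1, hx2, hx3⟩ := key (some l) y hy
    refine htyi l x _ hx1 ?_
    refine Prod.ext ?_ ?_
    · funext a b
      refine propext ?_
      change f (cl (y a)) = f (cl (y b)) ↔ x a = x b
      exact (hfi.eq_iff.trans (hcl _ _)).trans (hx2 a b).symm
    · funext l' w
      refine propext ?_
      change 𝔹 l' (fun i => f (cl (y (w i)))) ↔ 𝔹 l' (fun i => x (w i))
      rw [← hx3 l' w]
      have e1 : 𝔹 l' (fun i => f (cl (y (w i)))) ↔ Q l' (fun i => rp (cl (y (w i)))) :=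
        iff_of_eq (congrFun (congrFun hfe l') (fun i => cl (y (w i))))
      refine Iff.trans e1 ?_
      exact exA l' (fun i => rp (cl (y (w i)))) (fun i => y (w i)) fun a => by
        rw [← hcl, hrp]

end re

theorem pf_REL : T_REL := by
  intro V σ ρ _ 𝔸 𝔹 M hB n 𝕏
  exact re1L (tfL 𝔸 𝔹 M (c0 𝔹)) hB.three hB.prs.tyi hB.bdd hB.ar n 𝕏


end Pool.Agent.H10.LH
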